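import Pool.Agent.EDX.Stmts4

/-!
# Squad EDX, row NMB: the numerics of case B
-/

set_option autoImplicit false

namespace Pool.Agent.EDX.H92

open Polynomial Finset Pool.Agent.EDG Module Pool.Agent.EDX

/-- `log x ≤ a x - 1 - log a` -/
theorem log_le_lin (a x : ℝ) (ha : 0 < a) (hx : 0 < x) :
    Real.log x ≤ a * x - 1 - Real.log a := by
  have h := Real.log_le_sub_one_of_pos (mul_pos ha hx)
  rw [Real.log_mul ha.ne' hx.ne'] at h
  linarith

/-- `2 c √s ≤ a s + c² / a` -/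
theorem sqrt_le_lin (a c s : ℝ) (ha : 0 < a) (hs : 0 ≤ s) :
    2 * c * Real.sqrt s ≤ a * s + c ^ 2 / a := by
  have h1 := Real.sq_sqrt hs
  have h2 : 0 ≤ (a * Real.sqrt s - c) ^ 2 / a := by positivity
  have h3 : (a * Real.sqrt s - c) ^ 2 / a = a * (Real.sqrt s) ^ 2 - 2 * c * Real.sqrt s +
      c ^ 2 / a := by
    field_simp
    ring
  rw [h3, h1] at h2
  linarith

/-- **Row NMB.** -/
theorem nmb : NmbStmt := by
  intro δ C₁ K₂ q₀ hδ hδ1 hC₁ hK₂ hq₀ hlq
  have hl2 : 0 < Real.log 2 := Real.log_pos (by norm_num)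
  have hl4 : Real.log 4 = 2 * Real.log 2 := by
    rw [show (4 : ℝ) = 2 ^ 2 by norm_num, Real.log_pow]
    push_cast
    ring
  have hlK : 0 ≤ Real.log K₂ := Real.log_nonneg hK₂
  obtain ⟨a, ha⟩ : ∃ a : ℝ, a = δ * Real.log 2 / 2 := ⟨_, rfl⟩
  have ha0 : 0 < a := by rw [ha]; positivity
  obtain ⟨k, hk⟩ : ∃ k : ℝ, k = Real.log K₂ / Real.log 2 := ⟨_, rfl⟩
  have hk0 : 0 ≤ k := by rw [hk]; positivity
  have hk' : k * Real.log 2 = Real.log K₂ := by rw [hk]; field_simp
  obtain ⟨C4, hC4⟩ : ∃ C4 : ℝ, C4 = -1 - Real.log a + a * k + (C₁ * K₂) ^ 2 / a +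
      5 * Real.log 2 + (1 + δ) * Real.log K₂ := ⟨_, rfl⟩
  refine ⟨C4 / (1 + δ), ?_⟩
  intro n D m q f hn hD hm hD2 hq hKD hf hmain
  have hn0 : (0 : ℝ) < n := by exact_mod_cast hn
  have hD0 : (0 : ℝ) < D := by exact_mod_cast hD
  have hm0 : (0 : ℝ) < m := by exact_mod_cast hm
  have hq0' : (1 : ℝ) ≤ q₀ := by exact_mod_cast hq₀
  have hlD : 0 ≤ Real.log D := Real.log_nonneg (by exact_mod_cast hD)
  have hlD2 : Real.log D ≤ n * Real.log 2 := by
    rw [← Real.log_pow]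
    exact Real.log_le_log hD0 (by exact_mod_cast hD2)
  -- the logarithm of `2 ^ (q₀ m)`
  have h1 : q₀ * m * Real.log 2 ≤ Real.log K₂ + Real.log D := by
    have h := Real.log_le_log (by positivity) hKD
    rw [Real.log_pow, Real.log_mul (by linarith) hD0.ne'] at h
    push_cast at h
    exact h
  -- the fourth term
  have h2 : Real.log (36000 * (q₀ + 1) * 2 ^ q₀) ≤ (1 + δ) * (q₀ * Real.log 2) := by
    rw [Real.log_mul (by positivity) (by positivity), Real.log_pow]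
    linarith
  have h3 : m / 2 * Real.log (36000 * (q₀ + 1) * 2 ^ q₀) ≤
      (1 + δ) / 2 * (Real.log K₂ + Real.log D) := by
    calc m / 2 * Real.log (36000 * (q₀ + 1) * 2 ^ q₀) ≤
        m / 2 * ((1 + δ) * (q₀ * Real.log 2)) := mul_le_mul_of_nonneg_left h2 (by positivity)
      _ = (1 + δ) / 2 * (q₀ * m * Real.log 2) := by ring
      _ ≤ _ := mul_le_mul_of_nonneg_left h1 (by positivity)
  -- `m ≤ n + k`
  have h4 : (m : ℝ) ≤ n + k := by
    have h5 : (m : ℝ) ≤ q₀ * m := le_mul_of_one_le_left hm0.le hq0'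
    have h6 : (m : ℝ) * Real.log 2 ≤ (n + k) * Real.log 2 := by
      calc (m : ℝ) * Real.log 2 ≤ q₀ * m * Real.log 2 := mul_le_mul_of_nonneg_right h5 hl2.le
        _ ≤ Real.log K₂ + Real.log D := h1
        _ ≤ _ := by rw [add_mul, hk']; linarith
    exact le_of_mul_le_mul_right h6 hl2
  have h5 : Real.sqrt m ≤ Real.sqrt (n + k) := Real.sqrt_le_sqrt h4
  -- divide by `n D`
  have h6 : Real.log 2 * ((n - 1) / 2) ≤ Real.log 4 * (δ * n) +
      (Real.log n / 2 + q * Real.log 4 + m / 2 * Real.log (36000 * (q₀ + 1) * 2 ^ q₀)) +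
      C₁ * Real.sqrt m * K₂ := by
    have h7 : Real.log 2 * (D * ((n : ℝ) * (n - 1) / 2)) ≤ n * Real.log 4 * (δ * (n * D)) +
        n * D * (Real.log n / 2 + q * Real.log 4 +
          m / 2 * Real.log (36000 * (q₀ + 1) * 2 ^ q₀)) +
        C₁ * n * Real.sqrt m * (K₂ * D) := by
      refine hmain.trans ?_
      have e1 : n * Real.log 4 * f ≤ n * Real.log 4 * (δ * (n * D)) :=
        mul_le_mul_of_nonneg_left hf (by rw [hl4]; positivity)
      have e2 : C₁ * n * Real.sqrt m * 2 ^ (q₀ * m) ≤ C₁ * n * Real.sqrt m * (K₂ * D) :=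
        mul_le_mul_of_nonneg_left hKD (by positivity)
      linarith
    have h8 : (n * D : ℝ) * (Real.log 2 * ((n - 1) / 2)) ≤ (n * D : ℝ) *
        (Real.log 4 * (δ * n) +
      (Real.log n / 2 + q * Real.log 4 + m / 2 * Real.log (36000 * (q₀ + 1) * 2 ^ q₀)) +
      C₁ * Real.sqrt m * K₂) := by
      calc (n * D : ℝ) * (Real.log 2 * ((n - 1) / 2)) =
          Real.log 2 * (D * ((n : ℝ) * (n - 1) / 2)) := by ring
        _ ≤ _ := h7
        _ = _ := by ring
    exact le_of_mul_le_mul_left h8 (by positivity)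
  have h7 : q * Real.log 4 ≤ (δ * n + 1) * Real.log 4 :=
    mul_le_mul_of_nonneg_right hq (by rw [hl4]; positivity)
  have h8 : C₁ * Real.sqrt m * K₂ ≤ C₁ * K₂ * Real.sqrt (n + k) := by
    calc C₁ * Real.sqrt m * K₂ = C₁ * K₂ * Real.sqrt m := by ring
      _ ≤ _ := mul_le_mul_of_nonneg_left h5 (mul_nonneg hC₁ (by linarith))
  have h9 := log_le_lin a n ha0 hn0
  have h10 := sqrt_le_lin a (C₁ * K₂) (n + k) ha0 (by positivity)
  have ha2 : 2 * a = δ * Real.log 2 := by rw [ha]; ring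
  have h11 : 2 * (a * n) = δ * n * Real.log 2 := by
    rw [← mul_assoc, ha2]
    ring
  rw [hl4] at h6 h7
  have h12 : (1 - 9 * δ) * n * Real.log 2 ≤ (1 + δ) * Real.log D + C4 := by
    have e1 : (1 - 9 * δ) * n * Real.log 2 = 2 * (Real.log 2 * ((n - 1) / 2)) + Real.log 2 -
        8 * (δ * n * Real.log 2) - δ * n * Real.log 2 := by ring
    have e2 : (2 * Real.log 2) * (δ * n) = 2 * (δ * n * Real.log 2) := by ring
    have e3 : (δ * n + 1) * (2 * Real.log 2) = 2 * (δ * n * Real.log 2) + 2 * Real.log 2 := by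
      ring
    have e4 : (1 + δ) / 2 * (Real.log K₂ + Real.log D) =
        ((1 + δ) * Real.log K₂ + (1 + δ) * Real.log D) / 2 := by ring
    have e5 : a * (n + k) = a * n + a * k := by ring
    have e6 : 2 * (C₁ * K₂) * Real.sqrt (n + k) = 2 * (C₁ * K₂ * Real.sqrt (n + k)) := by ring
    rw [e1, hC4]
    rw [e2] at h6
    rw [e3] at h7
    rw [e4] at h3
    rw [e5, e6] at h10
    linarith
  have h13 : (1 + δ) * ((1 - 10 * δ) * n * Real.log 2) ≤
      (1 + δ) * (Real.log D + C4 / (1 + δ)) := by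
    have e1 : (1 + δ) * (Real.log D + C4 / (1 + δ)) = (1 + δ) * Real.log D + C4 := by
      field_simp
    have e2 : (1 + δ) * ((1 - 10 * δ) * n * Real.log 2) = (1 - 9 * δ) * n * Real.log 2 -
        10 * (δ ^ 2 * (n * Real.log 2)) := by ring
    have e3 : 0 ≤ δ ^ 2 * (n * Real.log 2) := by positivity
    rw [e1, e2]
    linarith
  exact le_of_mul_le_mul_left h13 (by linarith)

end Pool.Agent.EDX.H92
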